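import Pool.Agent.H63.WT.TC

/-!
# Row CLC: values at linear polynomials
-/

set_option autoImplicit false

open Polynomial Matrix Pool.Agent.H63.WT

namespace Pool.Agent.H57.WT

theorem isCoprime_X_sub_C {F : Type} [Field F] (R : F[X]) (t : F) :
    IsCoprime R (X - C t) ↔ eval t R ≠ 0 := by
  constructor
  · rintro ⟨a, b, hab⟩ h0
    have := congrArg (eval t) hab
    simp [h0] at this
  · intro h
    have hi : Irreducible (X - C t) := irreducible_X_sub_C t
    refine ((hi.coprime_iff_not_dvd).2 fun hd => h ?_).symm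
    exact dvd_iff_isRoot.1 hd

/-- **CLC.** -/
theorem pf_CLC (hLOC : T_LOC) (hLIN : T_LIN) : T_CLC := by
  intro F _ _ _ _ A B R M hR hsep hRM hsq
  constructor
  · intro t ht
    have hc1 : IsCoprime R (X - C t) := (isCoprime_X_sub_C R t).2 ht
    obtain ⟨ε1, hε1, h1⟩ := hLOC F R (X - C t) 1 hR hc1
    obtain ⟨ε2, hε2, h2⟩ := hLOC F R (M * (X - C t)) (M.natDegree + 1) hR (hRM.mul_right hc1)
    set K : ℝ := ∑ k ∈ M.support, ‖M.coeff k‖ with hK
    have hK0 : 0 ≤ K := Finset.sum_nonneg fun k _ => norm_nonneg _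
    have hcK : ∀ i, ‖M.coeff i‖ ≤ K := by
      intro i
      by_cases hi : i ∈ M.support
      · exact Finset.single_le_sum (f := fun k => ‖M.coeff k‖) (fun k _ => norm_nonneg _) hi
      · have : M.coeff i = 0 := by simpa [Polynomial.mem_support_iff] using hi
        rw [this, norm_zero]; exact hK0
    refine ⟨min ε1 (ε2 / (K + 1)), lt_min hε1 (by positivity), fun t' ht' => ?_⟩
    have ha : ‖t' - t‖ < ε1 := ht'.trans_le (min_le_left _ _)
    have hb : ‖t' - t‖ < ε2 / (K + 1) := ht'.trans_le (min_le_right _ _)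
    have hs : (X - C t' : F[X]) - (X - C t) = -C (t' - t) := by rw [C_sub]; ring
    have e1 := h1 (X - C t') (by rw [natDegree_X_sub_C]) (fun i => by
      rw [hs, coeff_neg, norm_neg, coeff_C]
      split_ifs
      · exact ha
      · rw [norm_zero]; exact hε1)
    have hs2 : M * (X - C t') - M * (X - C t) = -(C (t' - t) * M) := by rw [C_sub]; ring
    have e2 := h2 (M * (X - C t')) (natDegree_mul_le.trans (by rw [natDegree_X_sub_C]))
      (fun i => by
        rw [hs2, coeff_neg, norm_neg, coeff_C_mul, norm_mul]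
        have h3 : ‖t' - t‖ * ‖M.coeff i‖ ≤ ‖t' - t‖ * (K + 1) :=
          mul_le_mul_of_nonneg_left ((hcK i).trans (by linarith)) (norm_nonneg _)
        rw [lt_div_iff₀ (by linarith)] at hb
        exact h3.trans_lt hb)
    refine ⟨(isCoprime_X_sub_C R t').1 e1.1, ?_⟩
    unfold cc sy
    rw [e1.2.1, e2.2.1, natDegree_X_sub_C, natDegree_X_sub_C]
  · obtain ⟨b, hb⟩ := hLIN F R M hR hsep hRM hsq
    refine ⟨b, fun t ht => ⟨(hb t ht).1, ?_⟩⟩
    unfold cc
    rw [(hb t ht).2, natDegree_X_sub_C, one_smul, add_zero]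

end Pool.Agent.H57.WT
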