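import Pool.Agent.H63.WT.TB

/-!
# Row EXT: extensions generated by a root, with norms
-/

set_option autoImplicit false

open Polynomial Matrix Pool.Agent.H63.WT

namespace Pool.Agent.H57.WT

/-- **EXT.** -/
theorem pf_EXT : T_EXT := by
  intro F _ _ _ _ P0 hi
  haveI : Fact (Irreducible P0) := ⟨hi⟩
  haveI hfin : FiniteDimensional F (AdjoinRoot P0) :=
    (AdjoinRoot.powerBasis hi.ne_zero).finite
  haveI : Algebra.IsAlgebraic F (AdjoinRoot P0) := Algebra.IsAlgebraic.of_finite F _
  letI nL : NontriviallyNormedField (AdjoinRoot P0) :=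
    spectralNorm.nontriviallyNormedField F (AdjoinRoot P0)
  haveI uL : IsUltrametricDist (AdjoinRoot P0) :=
    IsUltrametricDist.isUltrametricDist_of_isNonarchimedean_norm
      (isNonarchimedean_spectralNorm (K := F) (L := AdjoinRoot P0))
  letI aL : NormedAlgebra F (AdjoinRoot P0) :=
    spectralNorm.normedAlgebra F (AdjoinRoot P0)
  haveI pL : ProperSpace (AdjoinRoot P0) := FiniteDimensional.proper F (AdjoinRoot P0)
  haveI cL : CharZero (AdjoinRoot P0) := charZero_of_injective_algebraMap
    (algebraMap F (AdjoinRoot P0)).injective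
  refine ⟨AdjoinRoot P0, nL, uL, pL, cL, aL, AdjoinRoot.root P0, hfin, ?_, ?_, ?_⟩
  · have h1 := (AdjoinRoot.powerBasis hi.ne_zero).finrank
    rw [AdjoinRoot.powerBasis_dim] at h1
    exact h1
  · have h3 : aeval (AdjoinRoot.root P0) P0 = 0 := by
      rw [AdjoinRoot.aeval_eq, AdjoinRoot.mk_self]
    exact h3
  · exact AdjoinRoot.adjoinRoot_eq_top

end Pool.Agent.H57.WT
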