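import Pool.Agent.H63.WT.TB

/-!
# Row FIN: forms near infinity
-/

set_option autoImplicit false

open Polynomial Matrix Pool.Agent.H63.WT

namespace Pool.Agent.H57.WT

theorem met_smul {F ι : Type} [Field F] [Fintype ι] (A : Matrix ι ι F) (c : F) (h : Met A) :
    Met (c • A) := by
  obtain ⟨r, hr, b, hb, hb0⟩ := h
  refine ⟨r, hr, b, hb, fun i j => ?_⟩
  rw [Matrix.smul_mulVec, dotProduct_smul, hb0, smul_zero]

theorem anis_smul {F ι : Type} [Field F] [Fintype ι] (A : Matrix ι ι F) (c : F) (hc : c ≠ 0)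
    (h : Anis A) : Anis (c • A) := by
  intro z hz
  rw [Matrix.smul_mulVec, dotProduct_smul, smul_eq_mul]
  exact mul_ne_zero hc (h z hz)

/-- **FIN.** -/
theorem pf_FIN (hLOC : T_LOC) (hSSQ : T_SSQ) : T_FIN := by
  intro F _ _ _ _ A h hA hcop
  obtain ⟨ε, hε, hloc⟩ := hLOC F A h (h.natDegree + 1) hA hcop
  -- a bound for the coefficients
  set K : ℝ := ∑ k ∈ h.support, ‖h.coeff k‖ with hK
  have hK0 : 0 ≤ K := Finset.sum_nonneg fun k _ => norm_nonneg _
  have hcK : ∀ i, ‖h.coeff i‖ ≤ K := by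
    intro i
    by_cases hi : i ∈ h.support
    · exact Finset.single_le_sum (f := fun k => ‖h.coeff k‖) (fun k _ => norm_nonneg _) hi
    · have : h.coeff i = 0 := by simpa [Polynomial.mem_support_iff] using hi
      rw [this, norm_zero]; exact hK0
  refine ⟨(K + 1) / ε, fun t ht => ?_⟩
  have hB0 : 0 < (K + 1) / ε := by positivity
  have ht0 : 0 < ‖t‖ := hB0.trans ht
  have htne : t ≠ 0 := norm_pos_iff.1 ht0
  have hfac : h * (X - C t) = C (-t) * (h - C t⁻¹ * (X * h)) := by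
    have : C t * C t⁻¹ = (1 : F[X]) := by rw [← C_mul, mul_inv_cancel₀ htne, C_1]
    rw [C_neg]
    linear_combination (-(h * X)) * this
  have hdeg : (h - C t⁻¹ * (X * h)).natDegree ≤ h.natDegree + 1 := by
    refine (natDegree_sub_le _ _).trans (max_le (by omega) ?_)
    refine (natDegree_C_mul_le _ _).trans ?_
    refine (natDegree_mul_le).trans ?_
    rw [natDegree_X]; omega
  have hco : ∀ i, ‖(h - C t⁻¹ * (X * h) - h).coeff i‖ < ε := by
    intro i
    have h1 : h - C t⁻¹ * (X * h) - h = - (C t⁻¹ * (X * h)) := by ring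
    rw [h1, coeff_neg, coeff_C_mul, norm_neg, norm_mul, norm_inv]
    have h2 : ‖(X * h).coeff i‖ ≤ K := by
      rcases i with _ | i
      · rw [coeff_X_mul_zero, norm_zero]; exact hK0
      · rw [coeff_X_mul]; exact hcK i
    have h3 : ‖t‖⁻¹ * ‖(X * h).coeff i‖ ≤ ‖t‖⁻¹ * K :=
      mul_le_mul_of_nonneg_left h2 (inv_nonneg.2 ht0.le)
    have h4 : ‖t‖⁻¹ * K < ε := by
      rw [inv_mul_lt_iff₀ ht0]
      rw [div_lt_iff₀ hε] at ht
      linarith
    exact h3.trans_lt h4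
  obtain ⟨h1, -, h3, h4⟩ := hloc _ hdeg hco
  have hg : gm A (h * (X - C t)) = (-t) • gm A (h - C t⁻¹ * (X * h)) := by
    rw [hfac]; exact (hSSQ F two_ne_zero A hA).2.2 _ _
  refine ⟨?_, fun hm => ?_, fun ha => ?_⟩
  · rw [hfac]
    refine IsCoprime.mul_right ?_ h1
    exact ⟨0, C (-t)⁻¹, by
      rw [zero_mul, zero_add, ← C_mul, inv_mul_cancel₀ (neg_ne_zero.2 htne), C_1]⟩
  · rw [hg]; exact met_smul _ _ (h3 hm)
  · rw [hg]; exact anis_smul _ _ (neg_ne_zero.2 htne) (h4 ha)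

end Pool.Agent.H57.WT
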