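import Pool.Agent.H57.WT.SQP

/-!
# Row LOC: the trace forms are locally constant
-/

set_option autoImplicit false

open Polynomial Matrix Pool.Agent.H63.WT Filter Topology

namespace Pool.Agent.H57.WT

theorem lam_congr {F : Type} [Field F] (A g g' : F[X]) (hA : A.Monic) (h : A ∣ g - g') :
    Pool.Agent.H34.N6.lam A g = Pool.Agent.H34.N6.lam A g' := by
  unfold Pool.Agent.H34.N6.lam
  have h0 : (g - g') %ₘ A = 0 := (modByMonic_eq_zero_iff_dvd hA).2 h
  have : g %ₘ A = g' %ₘ A := by
    rw [sub_modByMonic] at h0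
    exact sub_eq_zero.1 h0
  rw [this]

/-- multiplication by `z` in coordinates is a linear equivalence if `z` is prime to `A` -/
theorem exists_mulEquiv {F : Type} [Field F] (A z : F[X]) (hA : A.Monic) (h1 : 0 < A.natDegree)
    (hz : IsCoprime A z) : ∃ M : (Fin A.natDegree → F) ≃ₗ[F] (Fin A.natDegree → F),
      ∀ v, A ∣ z * pv _ v - pv _ (M v) := by
  let L : (Fin A.natDegree → F) →ₗ[F] (Fin A.natDegree → F) :=
    { toFun := fun v i => ((z * pv _ v) %ₘ A).coeff i
      map_add' := by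
        intro v w; funext i
        rw [Pi.add_apply, map_add, mul_add, add_modByMonic, coeff_add]
      map_smul' := by
        intro c v; funext i
        rw [Pi.smul_apply, map_smul, mul_smul_comm, smul_modByMonic, coeff_smul,
          RingHom.id_apply] }
  have hL : ∀ v, pv _ (L v) = (z * pv _ v) %ₘ A := fun v =>
    pv_of_natDegree A.natDegree ((z * pv _ v) %ₘ A)
      (natDegree_modByMonic_lt _ hA (by rintro rfl; simp at h1))
  have hdvd : ∀ v, A ∣ z * pv _ v - pv _ (L v) := fun v => by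
    rw [hL]
    exact ⟨(z * pv _ v) /ₘ A, by
      have := modByMonic_add_div (z * pv _ v) A
      linear_combination this.symm⟩
  have hinj : Function.Injective L := by
    rw [← LinearMap.ker_eq_bot, LinearMap.ker_eq_bot']
    intro v hv
    have h2 := hdvd v
    rw [hv, map_zero, sub_zero] at h2
    have h3 : A ∣ pv _ v := hz.dvd_of_dvd_mul_left h2
    have h4 : pv _ v = 0 := by
      by_contra h5
      have h6 := natDegree_le_of_dvd h3 h5
      have h7 : (pv A.natDegree v).natDegree < A.natDegree := by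
        have : (pv A.natDegree v).natDegree ≤ A.natDegree - 1 := by
          simp only [pv, LinearMap.coe_mk, AddHom.coe_mk]
          refine natDegree_sum_le_of_forall_le _ _ fun i _ => ?_
          exact (natDegree_C_mul_X_pow_le _ _).trans (by have := i.2; omega)
        omega
      omega
    funext i
    have := pv_coeff A.natDegree v i
    rw [h4] at this
    simpa using this.symm
  exact ⟨LinearEquiv.ofInjectiveEndo L hinj, fun v => hdvd v⟩

/-- the form of `h z²` is the form of `h` in other coordinates -/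
theorem form_sq {F : Type} [Field F] (hGMV : T_GMV) (hGDT : T_GDT) (A h h' z : F[X])
    (hA : A.Monic) (h1 : 0 < A.natDegree) (hz : IsCoprime A z) (hh : A ∣ h' - h * z ^ 2) :
    ∃ M : (Fin A.natDegree → F) ≃ₗ[F] (Fin A.natDegree → F),
      ∀ v w, v ⬝ᵥ (gm A h' *ᵥ w) = M v ⬝ᵥ (gm A h *ᵥ M w) := by
  obtain ⟨M, hM⟩ := exists_mulEquiv A z hA h1 hz
  refine ⟨M, fun v w => ?_⟩
  rw [(hGDT F A hA).2.2.2.2.2.1 _ _ hh, (hGMV F A _ hA).1, (hGMV F A _ hA).1]
  refine lam_congr A _ _ hA ?_
  change A ∣ h * z ^ 2 * pv _ v * pv _ w - h * pv _ (M v) * pv _ (M w)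
  obtain ⟨a, ha⟩ := hM v
  obtain ⟨b, hb⟩ := hM w
  refine ⟨h * (a * z * pv _ w + b * pv _ (M v)), ?_⟩
  linear_combination h * z * pv _ w * ha + h * pv _ (M v) * hb

/-- metabolic and anisotropic forms -/
theorem met_anis_sq {F : Type} [Field F] (hGMV : T_GMV) (hGDT : T_GDT) (A h h' z : F[X])
    (hA : A.Monic) (h1 : 0 < A.natDegree) (hz : IsCoprime A z) (hh : A ∣ h' - h * z ^ 2) :
    (Met (gm A h) → Met (gm A h')) ∧ (Anis (gm A h) → Anis (gm A h')) := by
  obtain ⟨M, hM⟩ := form_sq hGMV hGDT A h h' z hA h1 hz hh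
  constructor
  · rintro ⟨r, hr, b, hb, hb0⟩
    refine ⟨r, hr, fun i => M.symm (b i), ?_, fun i j => ?_⟩
    · exact hb.map' M.symm.toLinearMap M.symm.ker
    · rw [hM, LinearEquiv.apply_symm_apply, LinearEquiv.apply_symm_apply]
      exact hb0 i j
  · intro hAn z hz0
    rw [hM]
    exact hAn _ (by simpa using hz0)

/-- **LOC.** -/
theorem pf_LOC (hSQP : T_SQP) (hRMB : T_RMB) (hSSQ : T_SSQ) (hGDT : T_GDT) (hGMV : T_GMV) :
    T_LOC := by
  intro F _ _ _ _ A h N hA hcop
  by_cases h0 : A.natDegree = 0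
  · refine ⟨1, one_pos, fun h' _ _ => ?_⟩
    have hA1 : A = 1 := hA.natDegree_eq_zero.1 h0
    have he : IsEmpty (Fin A.natDegree) := by rw [h0]; infer_instance
    have hg : gm A h' = gm A h := Subsingleton.elim _ _
    refine ⟨hA1 ▸ isCoprime_one_left, ?_, fun h => hg ▸ h, fun h => hg ▸ h⟩
    unfold S; rw [hg]
  have h1 : 0 < A.natDegree := Nat.pos_of_ne_zero h0
  obtain ⟨a, k, hak⟩ := id hcop
  obtain ⟨ε0, hε0, hsq⟩ := hSQP F A hA
  obtain ⟨K, hK, hb⟩ := hRMB F A k (max N h.natDegree) hA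
  refine ⟨ε0 / (2 * K), by positivity, fun h' hN' hco => ?_⟩
  have hdeg : (h' - h).natDegree ≤ max N h.natDegree :=
    (natDegree_sub_le _ _).trans (max_le_max hN' le_rfl)
  have hu := hb (h' - h) (ε0 / (2 * K)) hdeg (by positivity) (fun i => (hco i).le)
  have hKe : K * (ε0 / (2 * K)) < ε0 := by
    have : K * (ε0 / (2 * K)) = ε0 / 2 := by field_simp
    rw [this]; linarith
  obtain ⟨z, hz, c, hc⟩ := hsq ((k * (h' - h)) %ₘ A)
    (natDegree_modByMonic_lt _ hA (by rintro rfl; simp at h1))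
    (fun i => (hu i).trans_lt hKe)
  have hm := modByMonic_add_div (k * (h' - h)) A
  have hdvd : A ∣ h' - h * z ^ 2 := by
    refine ⟨(h' - h) * a + h * ((k * (h' - h)) /ₘ A) + h * c, ?_⟩
    linear_combination h * hc - h * hm - (h' - h) * hak
  have hcop' : IsCoprime A h' := by
    obtain ⟨q, hq⟩ := hdvd
    have h3 : IsCoprime A (h * z ^ 2) := hcop.mul_right (hz.pow_right)
    have : h' = h * z ^ 2 + A * q := by linear_combination hq
    rw [this]
    exact h3.add_mul_left_right q
  refine ⟨hcop', (hSSQ F two_ne_zero A hA).1 h' h z hcop' hcop hdvd, ?_⟩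
  exact met_anis_sq hGMV hGDT A h h' z hA h1 hz hdvd

end Pool.Agent.H57.WT
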