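import Pool.Agent.H63.WT.TB

/-!
# Row ODP: an odd divisor gives a rational point
-/

set_option autoImplicit false

open Polynomial Matrix Pool.Agent.H63.WT

namespace Pool.Agent.H57.WT

/-- **ODP.** -/
theorem pf_ODP (hRED : T_RED) : T_ODP := by
  intro F _ h2 m M0 T hm hM0 hsep hdeg hT hsq hodd
  by_cases hms : IsSquare m
  · exact Or.inl hms
  right
  -- strong induction on the degree
  have key : ∀ n : ℕ, ∀ T : F[X], T.Monic → SqM T (C m * M0) → Odd T.natDegree →
      T.natDegree = n → ∃ t : F, IsSquare (m * eval t M0) := by
    intro n
    induction n using Nat.strong_induction_on with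
    | _ n ih =>
      intro T hT hsq hodd hn
      by_cases h3 : 3 ≤ T.natDegree
      · obtain ⟨Y, B, l, hl, hB, hlt, hY, hev⟩ := hRED F h2 m M0 T hm hM0 hsep hdeg hT hsq h3
        refine ih B.natDegree (by omega) B hB ?_ ?_ rfl
        · refine ⟨Y, ⟨-(C l * T), ?_⟩⟩
          linear_combination -hY
        · have := hev hms
          rcases Nat.even_or_odd B.natDegree with he | ho
          · exfalso
            have h4 : Odd (T.natDegree + B.natDegree) := hodd.add_even he
            exact (Nat.not_even_iff_odd.2 h4) this
          · exact ho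
      · have h1 : T.natDegree = 1 := by
          obtain ⟨k, hk⟩ := hodd; omega
        obtain ⟨s, hs⟩ := hsq
        have hTX : T = X - C (-(T.coeff 0)) := by
          have := hT.eq_X_add_C h1
          rw [this]; simp
        refine ⟨-(T.coeff 0), eval (-(T.coeff 0)) s, ?_⟩
        obtain ⟨q, hq⟩ := hs
        have h5 := congrArg (eval (-(T.coeff 0))) hq
        have h6 : eval (-(T.coeff 0)) T = 0 := by
          conv_lhs => rw [hTX]
          simp
        rw [eval_mul, h6, zero_mul, eval_sub, eval_mul, eval_C, eval_pow] at h5
        linear_combination h5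
  exact key _ T hT hsq hodd rfl

end Pool.Agent.H57.WT
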