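import Pool.Agent.H63.WT.TB

/-!
# Row RMB: the remainder is a bounded function
-/

set_option autoImplicit false

open Polynomial Matrix Pool.Agent.H63.WT

namespace Pool.Agent.H57.WT

/-- a coefficient is bounded by the sum of the norms of all coefficients -/
theorem coeff_le_sum {F : Type} [NormedField F] (p : F[X]) (i : ℕ) :
    ‖p.coeff i‖ ≤ ∑ k ∈ p.support, ‖p.coeff k‖ := by
  by_cases hi : i ∈ p.support
  · exact Finset.single_le_sum (f := fun k => ‖p.coeff k‖) (fun k _ => norm_nonneg _) hi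
  · have : p.coeff i = 0 := by simpa [Polynomial.mem_support_iff] using hi
    rw [this, norm_zero]
    exact Finset.sum_nonneg fun k _ => norm_nonneg _

/-- the remainder of a product as a sum -/
theorem mod_eq_sum {F : Type} [Field F] (A g h : F[X]) (N : ℕ)
    (hN : h.natDegree ≤ N) (i : ℕ) :
    ((g * h) %ₘ A).coeff i =
      ∑ j ∈ Finset.range (N + 1), h.coeff j * ((g * X ^ j) %ₘ A).coeff i := by
  have h1 : g * h = ∑ j ∈ Finset.range (N + 1), h.coeff j • (g * X ^ j) := by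
    conv_lhs => rw [h.as_sum_range' (N + 1) (by omega)]
    rw [Finset.mul_sum]
    refine Finset.sum_congr rfl fun j _ => ?_
    rw [← C_mul_X_pow_eq_monomial, smul_eq_C_mul]
    ring
  have h2 : ∀ p : F[X], p %ₘ A = Polynomial.modByMonicHom A p := fun p => rfl
  rw [h1, h2, map_sum, Polynomial.finsetSum_coeff]
  refine Finset.sum_congr rfl fun j _ => ?_
  rw [map_smul, Polynomial.coeff_smul, smul_eq_mul]
  rfl

/-- **RMB.** -/
theorem pf_RMB : T_RMB := by
  intro F _ _ A g N hA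
  refine ⟨1 + ∑ j ∈ Finset.range (N + 1), ∑ k ∈ ((g * X ^ j) %ₘ A).support,
    ‖((g * X ^ j) %ₘ A).coeff k‖, ?_, ?_⟩
  · have : 0 ≤ ∑ j ∈ Finset.range (N + 1), ∑ k ∈ ((g * X ^ j) %ₘ A).support,
        ‖((g * X ^ j) %ₘ A).coeff k‖ :=
      Finset.sum_nonneg fun j _ => Finset.sum_nonneg fun k _ => norm_nonneg _
    linarith
  intro h ε hN hε hh i
  rw [mod_eq_sum A g h N hN i]
  calc ‖∑ j ∈ Finset.range (N + 1), h.coeff j * ((g * X ^ j) %ₘ A).coeff i‖
      ≤ ∑ j ∈ Finset.range (N + 1), ‖h.coeff j * ((g * X ^ j) %ₘ A).coeff i‖ :=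
        norm_sum_le _ _
    _ ≤ ∑ j ∈ Finset.range (N + 1), (∑ k ∈ ((g * X ^ j) %ₘ A).support,
        ‖((g * X ^ j) %ₘ A).coeff k‖) * ε := by
        refine Finset.sum_le_sum fun j _ => ?_
        rw [norm_mul, mul_comm]
        exact mul_le_mul (coeff_le_sum _ i) (hh j) (norm_nonneg _)
          (Finset.sum_nonneg fun k _ => norm_nonneg _)
    _ = (∑ j ∈ Finset.range (N + 1), ∑ k ∈ ((g * X ^ j) %ₘ A).support,
        ‖((g * X ^ j) %ₘ A).coeff k‖) * ε := by rw [Finset.sum_mul]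
    _ ≤ _ := by
        refine mul_le_mul_of_nonneg_right ?_ hε.le
        linarith

end Pool.Agent.H57.WT
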