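import Pool.Agent.H63.WT.TB

/-!
# Row SQP: elements close to one are squares modulo a monic polynomial
-/

set_option autoImplicit false

open Polynomial Matrix Pool.Agent.H63.WT Filter Topology

namespace Pool.Agent.H57.WT

/-- the polynomial with given coefficients -/
noncomputable def pv {F : Type} [Field F] (n : ℕ) : (Fin n → F) →ₗ[F] F[X] where
  toFun v := ∑ i : Fin n, C (v i) * X ^ (i : ℕ)
  map_add' v w := by
    rw [← Finset.sum_add_distrib]
    refine Finset.sum_congr rfl fun i _ => ?_
    rw [Pi.add_apply, C_add, add_mul]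
  map_smul' c v := by
    rw [RingHom.id_apply, Finset.smul_sum]
    refine Finset.sum_congr rfl fun i _ => ?_
    rw [Pi.smul_apply, smul_eq_mul, C_mul, smul_eq_C_mul, mul_assoc]

theorem pv_coeff {F : Type} [Field F] (n : ℕ) (v : Fin n → F) (i : Fin n) :
    (pv n v).coeff i = v i := by
  simp only [pv, LinearMap.coe_mk, AddHom.coe_mk, Polynomial.finsetSum_coeff, coeff_C_mul,
    coeff_X_pow]
  rw [Finset.sum_eq_single i]
  · simp
  · intro b _ hb
    rw [if_neg (fun h => hb (Fin.ext h.symm)), mul_zero]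
  · simp

theorem pv_of_natDegree {F : Type} [Field F] (n : ℕ) (u : F[X]) (hu : u.natDegree < n) :
    pv n (fun i => u.coeff i) = u := by
  simp only [pv, LinearMap.coe_mk, AddHom.coe_mk]
  rw [Fin.sum_univ_eq_sum_range (fun i => C (u.coeff i) * X ^ i) n]
  exact (u.as_sum_range_C_mul_X_pow' hu).symm

/-- the multiplication modulo `A` in coordinates -/
noncomputable def mv {F : Type} [Field F] (A : F[X]) :
    (Fin A.natDegree → F) →ₗ[F] (Fin A.natDegree → F) →ₗ[F] (Fin A.natDegree → F) :=
  LinearMap.mk₂ F (fun v w i => ((pv _ v * pv _ w) %ₘ A).coeff i)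
    (by
      intro v v' w; funext i
      rw [Pi.add_apply, map_add, add_mul, add_modByMonic, coeff_add])
    (by
      intro c v w; funext i
      rw [Pi.smul_apply, map_smul, smul_mul_assoc, smul_modByMonic, coeff_smul])
    (by
      intro v w w'; funext i
      rw [Pi.add_apply, map_add, mul_add, add_modByMonic, coeff_add])
    (by
      intro c v w; funext i
      rw [Pi.smul_apply, map_smul, mul_smul_comm, smul_modByMonic, coeff_smul])

theorem pv_mv {F : Type} [Field F] (A : F[X]) (hA : A.Monic) (h1 : 0 < A.natDegree)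
    (v w : Fin A.natDegree → F) : pv _ (mv A v w) = (pv _ v * pv _ w) %ₘ A := by
  have := pv_of_natDegree A.natDegree ((pv _ v * pv _ w) %ₘ A)
    (natDegree_modByMonic_lt _ hA (by rintro rfl; simp at h1))
  rw [← this]
  rfl

theorem dvd_mv {F : Type} [Field F] (A : F[X]) (hA : A.Monic) (h1 : 0 < A.natDegree)
    (v w : Fin A.natDegree → F) : A ∣ pv _ v * pv _ w - pv _ (mv A v w) := by
  rw [pv_mv A hA h1]
  exact ⟨(pv _ v * pv _ w) /ₘ A, by
    have := modByMonic_add_div (pv _ v * pv _ w) A
    linear_combination this.symm⟩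

/-- **SQP.** -/
theorem pf_SQP : T_SQP := by
  intro F _ _ _ _ A hA
  by_cases h1 : A.natDegree = 0
  · exact ⟨1, one_pos, fun u hu => by omega⟩
  have h1' : 0 < A.natDegree := Nat.pos_of_ne_zero h1
  have h2 : (2 : F) ≠ 0 := two_ne_zero
  set E := Fin A.natDegree → F with hE
  -- the continuous bilinear multiplication
  let B : E →L[F] E →L[F] E :=
    LinearMap.toContinuousLinearMap (LinearMap.toContinuousLinearMap.toLinearMap ∘ₗ mv A)
  have hB : ∀ v w, B v w = mv A v w := fun v w => rfl
  -- the map `w ↦ 2 w + w²`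
  let f : E → E := fun w => (2 : F) • w + B w w
  have hf0 : f 0 = 0 := by simp [f]
  have hder : HasStrictFDerivAt f
      (((2 : F) • ContinuousLinearMap.id F E) +
        ((B.precompR E 0 (ContinuousLinearMap.id F E)) +
          (B.precompL E (ContinuousLinearMap.id F E) 0))) 0 := by
    have ha : HasStrictFDerivAt (fun w : E => (2 : F) • w)
        ((2 : F) • ContinuousLinearMap.id F E) 0 :=
      (hasStrictFDerivAt_id (0 : E)).const_smul (2 : F)
    have hb := B.hasStrictFDerivAt_of_bilinear (hasStrictFDerivAt_id (0 : E))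
      (hasStrictFDerivAt_id (0 : E))
    exact ha.add hb
  have hmap : map f (𝓝 0) = 𝓝 (f 0) := by
    refine hder.map_nhds_eq_of_surj ?_
    rw [LinearMap.range_eq_top]
    intro y
    refine ⟨(2 : F)⁻¹ • y, ?_⟩
    simp [smul_smul, h2]
  rw [hf0] at hmap
  -- the neighbourhood of zero where `1 + w` is invertible
  have hW : {w : E | ‖B w‖ < 1} ∈ 𝓝 (0 : E) := by
    have hc : Continuous fun w : E => ‖B w‖ := B.continuous.norm
    refine hc.isOpen_preimage (Set.Iio 1) isOpen_Iio |>.mem_nhds ?_
    simp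
  have hf : f '' {w : E | ‖B w‖ < 1} ∈ 𝓝 (0 : E) := by
    rw [← hmap]
    exact image_mem_map hW
  obtain ⟨ε, hε, hball⟩ := Metric.mem_nhds_iff.1 hf
  refine ⟨ε, hε, fun u hu hco => ?_⟩
  have hmem : (fun i : Fin A.natDegree => u.coeff i) ∈ Metric.ball (0 : E) ε := by
    rw [mem_ball_zero_iff, pi_norm_lt_iff hε]
    exact fun i => hco i
  obtain ⟨w, hw, hwu⟩ := hball hmem
  have hw1 : ‖B w‖ < 1 := hw
  refine ⟨1 + pv _ w, ?_, ?_⟩
  · -- the inverse
    have hn : ‖-(B w)‖ < 1 := by rwa [norm_neg]
    let U := Units.oneSub (-(B w)) hn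
    let e : E := fun i => (1 : F[X]).coeff i
    have he : pv _ e = 1 := pv_of_natDegree _ _ (by simpa using h1')
    let v : E := (↑U⁻¹ : E →L[F] E) e
    have hv : (↑U : E →L[F] E) v = e := by
      have : ((↑U : E →L[F] E) * (↑U⁻¹ : E →L[F] E)) e = e := by
        rw [Units.mul_inv]; rfl
      exact this
    have hv2 : v + mv A w v = e := by
      have : (1 - -(B w) : E →L[F] E) v = e := hv
      simpa [hB] using this
    have hv3 := congrArg (pv A.natDegree) hv2
    rw [map_add, he] at hv3
    obtain ⟨k, hk⟩ := dvd_mv A hA h1' w v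
    refine ⟨-k, pv _ v, ?_⟩
    linear_combination hv3 + hk
  · obtain ⟨k, hk⟩ := dvd_mv A hA h1' w w
    have hu1 : pv _ (f w) = u := by
      rw [hwu]; exact pv_of_natDegree _ _ hu
    have hu2 : pv _ (f w) = C 2 * pv _ w + pv _ (mv A w w) := by
      change pv _ ((2 : F) • w + mv A w w) = _
      rw [map_add, map_smul, smul_eq_C_mul]
    refine ⟨-k, ?_⟩
    have h2' : (C 2 : F[X]) = 2 := C_ofNat 2
    rw [h2'] at hu2
    linear_combination hu2 - hu1 - hk

end Pool.Agent.H57.WT
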